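import Pool.Agent.Q36.EF.Psef

/-!
# The rational SYZ conjecture for quotients of complex tori, with an exponent depending on the dimension

`X = V / Γ` is a primitive symplectic variety of dimension `d`, the quotient of a complex torus by a
finite group. `latt`, `IsTorusQuotient`, `IsForm`, `IsPrimitiveSymplectic`, `LineBundle`,
`LineBundle.pow` and `LineBundle.IsTrivial` are defined in `Pool.Agent.W594.SYZ.Defs2`; `IsHermitian`,
`IsChernForm`, `IsNefForm`, `IsPositiveForm`, `IsDegenerateForm`, `IsLagrangianFibration` and `Induces`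
in `Pool.Agent.W594.SYZ.TQDefs`; `IsLogPsh` and `IsPseudoEffective` in
`Pool.Agent.TH128.SYZ.PsefDefs`; `N`, `BasePointFree`, `SameImage`, `IsIso` and `Defines` in
`Pool.Agent.Q36.EF.Defs`.

Movable line bundles are pseudo-effective. The map defined by the linear system `|L ^ k|` is the one the
problem asks about; here it is determined for `k = N(d) = 3 ((3 ^ (4 d ^ 2))!) ^ 3`.
-/

set_option autoImplicit false

universe u

namespace Pool.Agent.Results.MP_e4ecdb_ag.EffectiveFibration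

open Pool.Agent.W594.SYZ2 Pool.Agent.TH128.SYZ Q36.EF

/-- Let `X` be a primitive symplectic torus quotient of dimension `d`, `k = N(d)`, and `L` a line bundle
on `X` with Chern form `H` and `q_X(L) = 0`, that is, `H` is degenerate. Equivalent: `L` is
pseudo-effective; `L` is nef; some power `L ^ m`, `m ≥ 1`, has a nonzero section; `L ^ k` is base point
free. In this case `H = 0` if and only if `L ^ k` is trivial, and if `H ≠ 0` then the linear system
`|L ^ k|` defines a holomorphic Lagrangian fibration `f`, and every Lagrangian fibration induced by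
`L` is isomorphic to `f`. -/
theorem result {V : Type u} [NormedAddCommGroup V] [NormedSpace ℂ V] [FiniteDimensional ℂ V]
    (Γ : Subgroup (V ≃ᵃ[ℂ] V)) (hΓ : IsPrimitiveSymplectic Γ) (L : LineBundle Γ)
    (H : V → V → ℂ) (hc : IsChernForm L H) (hd : IsDegenerateForm H) (k : ℕ)
    (hk : k = N (Module.finrank ℂ V)) :
    List.TFAE [IsPseudoEffective L, IsNefForm H,
      ∃ m : ℕ, 1 ≤ m ∧ ∃ s, (L.pow m).IsSection s ∧ s ≠ 0, BasePointFree (L.pow k)] ∧
    (IsPseudoEffective L →
      ((∀ v w, H v w = 0) ↔ (L.pow k).IsTrivial) ∧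
      ((∃ v w, H v w ≠ 0) → ∃ (n : ℕ) (Δ : Subgroup ((Fin n → ℂ) ≃ᵃ[ℂ] (Fin n → ℂ)))
        (π : V →ₗ[ℂ] (Fin n → ℂ)), IsLagrangianFibration Γ Δ π ∧
          Defines (L.pow k) (fun v w => (k : ℂ) * H v w) Δ π ∧
          ∀ (n' : ℕ) (Δ' : Subgroup ((Fin n' → ℂ) ≃ᵃ[ℂ] (Fin n' → ℂ)))
            (π' : V →ₗ[ℂ] (Fin n' → ℂ)), IsLagrangianFibration Γ Δ' π' → Induces L Δ' π' →
            ∃ φ : (Fin n → ℂ) ≃ₗ[ℂ] (Fin n' → ℂ), (∀ v, π' v = φ (π v)) ∧
              ∀ δ' : (Fin n' → ℂ) ≃ᵃ[ℂ] (Fin n' → ℂ),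
                δ' ∈ Δ' ↔ ∃ δ ∈ Δ, ∀ w, δ' (φ w) = φ (δ w))) := by
  subst hk
  exact ⟨psef_tfae hΓ hc, fun hp => syz hΓ hc ((psef_iff_nef hΓ.torus hc).1 hp) hd⟩

end Pool.Agent.Results.MP_e4ecdb_ag.EffectiveFibration
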