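import Pool.Agent.Q36.IS.Fib

/-!
# Isotropic classes and Lagrangian fibrations of primitive symplectic torus quotients

`X = V / Γ` is a primitive symplectic variety of dimension `d`, the quotient of a complex torus by a
finite group. `latt`, `IsTorusQuotient`, `IsForm`, `IsPrimitiveSymplectic`, `LineBundle` and
`LineBundle.pow` are defined in `Pool.Agent.W594.SYZ.Defs2`; `IsHermitian`, `IsChernForm`, `IsNefForm`,
`IsPositiveForm`, `IsDegenerateForm` and `IsLagrangianFibration` in `Pool.Agent.W594.SYZ.TQDefs`; `N`,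
`BasePointFree`, `SameImage`, `IsIso` and `Defines` in `Pool.Agent.Q36.EF.Defs`.

Let `H` be an invariant hermitian form with a kernel, `H(x, y) = H₀(A x, y)` for an invariant positive
definite form `H₀`. As the symplectic form `σ` is unique, `σ(A x, A y) = 0` and
`σ(A x, y) + σ(x, A y) = μ σ(x, y)`, hence `A² = μ A`, and `μ H(x, x) = H₀(A x, A x) ≥ 0`: so `H` or `-H` is
semidefinite. Conversely, the invariant rational two-forms on the base of a Lagrangian fibration are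
of type `(1, 1)`, as there are no invariant holomorphic two-forms.
-/

set_option autoImplicit false

universe u

namespace Pool.Agent.Results.MP_e4ecdb_ag.IsotropicClasses

open Pool.Agent.W594.SYZ2 Pool.Agent.W594.SYZ2.TQ Q36.EF Q36.IS

/-- The form is degenerate and not zero: `q_X(L) = 0` and `c_1(L) ≠ 0` for the line bundles `L` with
Chern form `H`. -/
def IsIsotropic {V : Type*} [NormedAddCommGroup V] (H : V → V → ℂ) : Prop :=
  IsDegenerateForm H ∧ ∃ v w, H v w ≠ 0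

/-- `M` is the dual line bundle of `L`: the product of the factors of automorphy is one. -/
def IsDual {V : Type*} [NormedAddCommGroup V] [NormedSpace ℂ V] {Γ : Subgroup (V ≃ᵃ[ℂ] V)}
    (M L : LineBundle Γ) : Prop := ∀ γ v, M.e γ v * L.e γ v = 1

/-- The fibrations of `V / Γ` onto `W / Δ` and `W' / Δ'` given by `π` and `π'` are isomorphic: for a linear
isomorphism `φ` from `W` to `W'` we have `π' = φ ∘ π` and `Δ' = φ Δ φ⁻¹`. -/
def IsIsoOver {V W W' : Type*} [AddCommGroup V] [Module ℂ V] [AddCommGroup W] [Module ℂ W]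
    [AddCommGroup W'] [Module ℂ W'] (Δ : Subgroup (W ≃ᵃ[ℂ] W)) (π : V →ₗ[ℂ] W)
    (Δ' : Subgroup (W' ≃ᵃ[ℂ] W')) (π' : V →ₗ[ℂ] W') : Prop :=
  ∃ φ : W ≃ₗ[ℂ] W', (∀ v, π' v = φ (π v)) ∧
    ∀ δ' : W' ≃ᵃ[ℂ] W', δ' ∈ Δ' ↔ ∃ δ ∈ Δ, ∀ w, δ' (φ w) = φ (δ w)

/-- Let `X` be a primitive symplectic torus quotient of dimension `d`.

(1) Let `L` be any line bundle with `q_X(L) = 0` and `c_1(L) ≠ 0`. Then `M` is nef and `|M ^ N(d)|` defines a
Lagrangian fibration for `M = L` or for `M = L ^ (-1)`.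

(2) Every Lagrangian fibration `f : X → B` (given by a linear map, onto a torus quotient `B`, which is not
assumed to be projective) is defined by `|L ^ N(d)|` for some nef line bundle `L` with `q_X(L) = 0` and
`c_1(L) ≠ 0`.

(3) The Chern form of the `L` in (2) is determined by `f` up to a positive factor.

(4) Two Lagrangian fibrations as in (2), given by `π` and `π'`, are isomorphic, or the kernels of `π` and
`π'` have intersection zero (any two fibres meet in a finite set). -/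
theorem result {V : Type u} [NormedAddCommGroup V] [NormedSpace ℂ V] [FiniteDimensional ℂ V]
    (Γ : Subgroup (V ≃ᵃ[ℂ] V)) (hΓ : IsPrimitiveSymplectic Γ) :
    (∀ (L : LineBundle Γ) (H : V → V → ℂ), IsChernForm L H → IsIsotropic H →
      ∃ (M : LineBundle Γ) (H' : V → V → ℂ),
        (M = L ∨ IsDual M L) ∧
        IsChernForm M H' ∧ IsNefForm H' ∧
        ∃ (n : ℕ) (Δ : Subgroup ((Fin n → ℂ) ≃ᵃ[ℂ] (Fin n → ℂ))) (π : V →ₗ[ℂ] (Fin n → ℂ)),
          IsLagrangianFibration Γ Δ π ∧ Defines (M.pow (N (Module.finrank ℂ V)))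
            (fun v w => (N (Module.finrank ℂ V) : ℂ) * H' v w) Δ π) ∧
    (∀ (n : ℕ) (Δ : Subgroup ((Fin n → ℂ) ≃ᵃ[ℂ] (Fin n → ℂ))) (π : V →ₗ[ℂ] (Fin n → ℂ)),
      IsLagrangianFibration Γ Δ π →
      (∃ (L : LineBundle Γ) (H : V → V → ℂ), IsChernForm L H ∧ IsNefForm H ∧ IsIsotropic H ∧
        Defines (L.pow (N (Module.finrank ℂ V)))
          (fun v w => (N (Module.finrank ℂ V) : ℂ) * H v w) Δ π) ∧
      ∀ (L L' : LineBundle Γ) (H H' : V → V → ℂ), IsChernForm L H → IsChernForm L' H' →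
        Defines (L.pow (N (Module.finrank ℂ V)))
          (fun v w => (N (Module.finrank ℂ V) : ℂ) * H v w) Δ π →
        Defines (L'.pow (N (Module.finrank ℂ V)))
          (fun v w => (N (Module.finrank ℂ V) : ℂ) * H' v w) Δ π →
        ∃ t : ℝ, 0 < t ∧ ∀ v w, H v w = t * H' v w) ∧
    ∀ (n n' : ℕ) (Δ : Subgroup ((Fin n → ℂ) ≃ᵃ[ℂ] (Fin n → ℂ)))
      (Δ' : Subgroup ((Fin n' → ℂ) ≃ᵃ[ℂ] (Fin n' → ℂ))) (π : V →ₗ[ℂ] (Fin n → ℂ))
      (π' : V →ₗ[ℂ] (Fin n' → ℂ)), IsLagrangianFibration Γ Δ π → IsLagrangianFibration Γ Δ' π' →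
      (∀ v, π v = 0 → π' v = 0 → v = 0) ∨ IsIsoOver Δ π Δ' π' := by
  refine ⟨fun L H hc hi => ?_, fun n Δ π hlag => ⟨?_, fun L L' H H' hc hc' hD hD' => ?_⟩,
    fun n n' Δ Δ' π π' hlag hlag' => transversal hΓ hlag hlag'⟩
  · rcases sign hΓ hc.1 (chern_inv hc) hi.1 with h | h
    · obtain ⟨n, Δ, π, h1, h2, -⟩ := (syz hΓ hc h hi.1).2 hi.2
      exact ⟨L, H, Or.inl rfl, hc, h, n, Δ, π, h1, h2⟩
    · obtain ⟨⟨x, hx, hx0⟩, v, w, hvw⟩ := hi
      have hd : IsDegenerateForm fun v w => -H v w := ⟨x, hx, fun w => by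
        change -H x w = 0
        rw [hx0, neg_zero]⟩
      obtain ⟨n, Δ, π, h1, h2, -⟩ := (syz hΓ (chern_dual hc) h hd).2 ⟨v, w, neg_ne_zero.2 hvw⟩
      exact ⟨dual L, _, Or.inr fun γ v => inv_mul_cancel₀ (L.ne_zero γ v), chern_dual hc, h, n, Δ, π,
        h1, h2⟩
  · obtain ⟨L, H, h1, h2, h3, h4, h5⟩ := exists_lb hΓ hlag
    exact ⟨L, H, h1, h2, ⟨h3, h4⟩, h5⟩
  · have hn := nef_of_defines (N_pos _) hD
    have hn' := nef_of_defines (N_pos _) hD'
    have hk := ker_of_defines (N_pos _) hD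
    have hk' := ker_of_defines (N_pos _) hD'
    obtain ⟨x, hx, hx0⟩ := exists_ker hlag
    have hne : ∃ v w, H v w ≠ 0 := by
      by_contra hcon
      push Not at hcon
      have h1 : ∀ v, π v = 0 := fun v => (hk v).2 (hcon v)
      have h2 : (⊤ : Submodule ℂ (Fin n → ℂ)) = ⊥ := by
        rw [← LinearMap.range_eq_top.2 hlag.surj, LinearMap.range_eq_bot]
        exact LinearMap.ext h1
      have h3 := hlag.dim_pos
      rw [← finrank_top, h2, finrank_bot] at h3
      exact lt_irrefl _ h3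
    exact proportional hΓ hc.1 hc'.1 hn hn' (chern_inv hc) (chern_inv hc')
      (fun v => by rw [← hk, ← hk']) ⟨x, hx, (hk x).1 hx0⟩ hne

end Pool.Agent.Results.MP_e4ecdb_ag.IsotropicClasses
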