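import Pool.Agent.Q276.SYZ.Ex3

set_option autoImplicit false

/-!
# A nontrivial movable line bundle `L` with `q_X(L) = 0` no power of which defines a fibration

`IsPrimitiveSymplectic`, `LineBundle`, `LineBundle.pow`, `LineBundle.IsSection` and
`LineBundle.IsTrivial` are defined in `Pool.Agent.W594.SYZ.Defs2`, `IsChernForm` in
`Pool.Agent.W594.SYZ.TQDefs`.

The dihedral group `D` of order `8`, that is, the group of all integral orthogonal `2 × 2` matrices,
acts on `V = ℂ² ⊕ ℂ²`, on both summands in the same way, and preserves the lattice `Λ` of all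
`(x, y)`, `x, y ∈ ℤ[i]²`, with `y_1 ≡ y_2` modulo `2`.  Let `t = (1/2, 1/2; 1, 0)`.  The
transformations `v ↦ A v + b` (`det A = 1`) and `v ↦ A v + t + b` (`det A = -1`), `A ∈ D`, `b ∈ Λ`,
form a group `Γ`.  The only invariant forms on `V` of degree one and two are the multiples of
`dx_1 ∧ dy_1 + dx_2 ∧ dy_2`, and the elements of `Γ` with `det A = -1` have no fixed points, so
`γ ↦ det A` defines a line bundle on `X = V / Γ`, which is not trivial, but whose square is trivial.

`c_1(L) = 0` in `H²(X, ℝ)`, so `c_1(L)` lies in the closure of the movable cone (and in that of the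
Kähler cone), and `q_X(L) = 0`.  A linear system with at most one member does not define a map to a
variety of positive dimension.
-/

namespace Pool.Agent.Results.MP_e4ecdb_ag.NontrivialMovableTorsion

open Pool.Agent.W594.SYZ2

/-- There are a primitive symplectic variety `X = V / Γ` of dimension four, the quotient of a complex
torus by a finite group, and a line bundle `L` on `X` with Chern form `0` such that `L` is not
isomorphic to `O_X`, and every power of `L` has at most one section up to scalar factors.  In this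
example `L ^ 2` is trivial. -/
theorem result : ∃ (Γ : Subgroup ((Fin 2 → Fin 2 → ℂ) ≃ᵃ[ℂ] (Fin 2 → Fin 2 → ℂ)))
    (L : LineBundle Γ), IsPrimitiveSymplectic Γ ∧ IsChernForm L (fun _ _ => 0) ∧
    ¬ L.IsTrivial ∧
    (∀ (m : ℕ) (s s' : (Fin 2 → Fin 2 → ℂ) → ℂ), (L.pow m).IsSection s → (L.pow m).IsSection s' →
      ∃ a b : ℂ, (a ≠ 0 ∨ b ≠ 0) ∧ a • s + b • s' = 0) ∧
    (L.pow 2).IsTrivial :=
  ⟨Q276.SYZ.Gam, Q276.SYZ.L, Q276.SYZ.primitive, Q276.SYZ.chern, Q276.SYZ.not_trivial,
    Q276.SYZ.sections_le_one, Q276.SYZ.pow_two_trivial⟩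

end Pool.Agent.Results.MP_e4ecdb_ag.NontrivialMovableTorsion
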